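import Pool.Agent.helper50.MA.Spec1

/-! # Project ma (MP_0012ff_an): A4 -/

set_option autoImplicit false

open MeasureTheory Set Filter Topology Complex
open scoped ContDiff Real

namespace MAP

noncomputable section

/-- trigonometric polynomials -/
def A4_trig (f : AddCircle (2 * π) → ℂ) : Prop :=
  ∃ p q : Polynomial ℂ, ∀ x, f x = p.eval (AddCircle.toCircle x : ℂ) +
    (starRingEnd ℂ) (q.eval (AddCircle.toCircle x : ℂ))

theorem A4_approx (g : ℂ → ℝ) (hg : ContinuousOn g (Metric.sphere (0 : ℂ) 1)) (ε : ℝ) (hε : 0 < ε) :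
    ∃ p : Polynomial ℂ, ∀ ζ : ℂ, ‖ζ‖ = 1 → |g ζ - (p.eval ζ).re| < ε := by
  haveI : Fact (0 < 2 * π) := ⟨by positivity⟩
  have hcont : Continuous (fun x : AddCircle (2 * π) => ((g (AddCircle.toCircle x : ℂ) : ℝ) : ℂ)) := by
    refine continuous_ofReal.comp (hg.comp_continuous (continuous_subtype_val.comp AddCircle.continuous_toCircle) ?_)
    intro x
    simp
  let G : C(AddCircle (2 * π), ℂ) := ⟨_, hcont⟩
  have hG : G ∈ (Submodule.span ℂ (range <| @fourier (2 * π))).topologicalClosure := by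
    rw [span_fourier_closure_eq_top]
    exact Submodule.mem_top
  have hG' : G ∈ closure ((Submodule.span ℂ (range <| @fourier (2 * π)) : Submodule ℂ _) : Set C(AddCircle (2 * π), ℂ)) := hG
  rw [Metric.mem_closure_iff] at hG'
  obtain ⟨f, hf, hd⟩ := hG' ε hε
  have htrig : A4_trig f := by
    refine Submodule.span_induction (p := fun (f : C(AddCircle (2 * π), ℂ)) _ => A4_trig f) ?_ ?_ ?_ ?_ hf
    · rintro _ ⟨n, rfl⟩
      rcases le_total 0 n with hn | hn
      · obtain ⟨m, rfl⟩ := Int.eq_ofNat_of_zero_le hn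
        refine ⟨Polynomial.X ^ m, 0, fun x => ?_⟩
        rw [fourier_apply, AddCircle.toCircle_zsmul]
        simp
      · obtain ⟨m, hm⟩ := Int.eq_ofNat_of_zero_le (neg_nonneg.2 hn)
        have hn' : n = -(m : ℤ) := by omega
        subst hn'
        refine ⟨0, Polynomial.X ^ m, fun x => ?_⟩
        rw [fourier_apply, AddCircle.toCircle_zsmul]
        simp only [zpow_neg, zpow_natCast, Polynomial.eval_zero, zero_add, Polynomial.eval_pow,
          Polynomial.eval_X, map_pow]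
        rw [← Circle.coe_inv_eq_conj]
        simp
    · exact ⟨0, 0, fun x => by simp⟩
    · rintro a b _ _ ⟨p, q, h⟩ ⟨p', q', h'⟩
      refine ⟨p + p', q + q', fun x => ?_⟩
      have : (a + b) x = a x + b x := rfl
      rw [this, h, h']
      simp only [Polynomial.eval_add, map_add]
      ring
    · rintro c a _ ⟨p, q, h⟩
      refine ⟨Polynomial.C c * p, Polynomial.C ((starRingEnd ℂ) c) * q, fun x => ?_⟩
      have : (c • a) x = c * a x := rfl
      rw [this, h]
      simp only [Polynomial.eval_mul, Polynomial.eval_C, map_mul, Complex.conj_conj]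
      ring
  obtain ⟨p, q, hpq⟩ := htrig
  refine ⟨p + q, fun ζ hζ => ?_⟩
  obtain ⟨x, hx⟩ : ∃ x : AddCircle (2 * π), (AddCircle.toCircle x : ℂ) = ζ := by
    have hmem : ζ ∈ Submonoid.unitSphere ℂ := by simpa [Submonoid.unitSphere] using hζ
    obtain ⟨x, hx⟩ := (AddCircle.homeomorphCircle (T := 2 * π) (by positivity)).surjective ⟨ζ, hmem⟩
    refine ⟨x, ?_⟩
    rw [← AddCircle.homeomorphCircle_apply (T := 2 * π) (by positivity), hx]
  have h1 : dist (G x) (f x) ≤ dist G f := ContinuousMap.dist_apply_le_dist x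
  have h2 : dist (G x) (f x) < ε := lt_of_le_of_lt h1 hd
  rw [dist_eq_norm] at h2
  have h3 : (G x - f x).re = g ζ - ((p + q).eval ζ).re := by
    have : G x = ((g (AddCircle.toCircle x : ℂ) : ℝ) : ℂ) := rfl
    rw [this, hpq, hx]
    simp
  rw [← h3]
  exact lt_of_le_of_lt (Complex.abs_re_le_norm _) h2

/-- local sub-mean property -/
def A4_loc (h : ℂ → ℝ) : Prop :=
  ∀ ζ ∈ Metric.ball (0 : ℂ) 1, ∃ r > 0, ∀ s : ℝ, 0 < s → s < r →
    h ζ ≤ (2 * π)⁻¹ * ∫ θ in (0 : ℝ)..(2 * π), h (ζ + s * cexp (θ * I))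

theorem A4_max (h : ℂ → ℝ) (hc : ContinuousOn h (Metric.closedBall 0 1)) (hloc : A4_loc h)
    (hb : ∀ ζ : ℂ, ‖ζ‖ = 1 → h ζ ≤ 0) : h 0 ≤ 0 := by
  by_contra hcon
  push Not at hcon
  have h0 : (0 : ℂ) ∈ Metric.closedBall (0 : ℂ) 1 := by simp
  obtain ⟨z0, hz0, hz0m⟩ := (isCompact_closedBall (0 : ℂ) 1).exists_isMaxOn ⟨0, h0⟩ hc
  set M := h z0 with hM
  have hMpos : 0 < M := lt_of_lt_of_le hcon (hz0m h0)
  have hKc : IsCompact (Metric.closedBall (0 : ℂ) 1 ∩ h ⁻¹' {M}) :=
    (isCompact_closedBall (0 : ℂ) 1).of_isClosed_subset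
      (hc.preimage_isClosed_of_isClosed Metric.isClosed_closedBall isClosed_singleton) inter_subset_left
  obtain ⟨z1, hz1, hz1m⟩ := hKc.exists_isMaxOn ⟨z0, hz0, rfl⟩ Complex.continuous_re.continuousOn
  have hz1M : h z1 = M := hz1.2
  have hz1b : ‖z1‖ < 1 := by
    have h1 : ‖z1‖ ≤ 1 := by simpa using hz1.1
    rcases h1.lt_or_eq with h2 | h2
    · exact h2
    · have := hb z1 h2
      rw [hz1M] at this
      exact absurd hMpos (not_lt.2 this)
  obtain ⟨r, hr, hrs⟩ := hloc z1 (by simpa using hz1b)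
  obtain ⟨s, hs0, hs1⟩ : ∃ s : ℝ, 0 < s ∧ s < min r (1 - ‖z1‖) := exists_between (lt_min hr (by linarith))
  have hsr : s < r := lt_of_lt_of_le hs1 (min_le_left _ _)
  have hs1' : s < 1 - ‖z1‖ := lt_of_lt_of_le hs1 (min_le_right _ _)
  have hmem : ∀ θ : ℝ, z1 + s * cexp (θ * I) ∈ Metric.closedBall (0 : ℂ) 1 := by
    intro θ
    rw [mem_closedBall_zero_iff]
    calc ‖z1 + s * cexp (θ * I)‖ ≤ ‖z1‖ + ‖(s : ℂ) * cexp (θ * I)‖ := norm_add_le _ _
      _ = ‖z1‖ + s := by
        rw [norm_mul, Complex.norm_exp_ofReal_mul_I, mul_one, Complex.norm_real, Real.norm_of_nonneg hs0.le]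
      _ ≤ 1 := by linarith
  have hcirc : Continuous (fun θ : ℝ => h (z1 + s * cexp (θ * I))) := by
    refine hc.comp_continuous (by fun_prop) hmem
  have hlt : ∫ θ in (0 : ℝ)..(2 * π), h (z1 + s * cexp (θ * I)) < ∫ θ in (0 : ℝ)..(2 * π), M := by
    refine intervalIntegral.integral_lt_integral_of_continuousOn_of_le_of_exists_lt (by positivity)
      hcirc.continuousOn continuousOn_const (fun θ _ => hz0m (hmem θ)) ⟨0, by simp; positivity, ?_⟩
    have hm0 := hmem 0
    simp only [ofReal_zero, zero_mul, Complex.exp_zero, mul_one] at hm0 ⊢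
    refine lt_of_le_of_ne (hz0m hm0) ?_
    intro heq
    have h1 : z1 + (s : ℂ) ∈ Metric.closedBall (0 : ℂ) 1 ∩ h ⁻¹' {M} := ⟨hm0, heq⟩
    have h2 := hz1m h1
    simp only [mem_ofPred_eq, add_re, ofReal_re] at h2
    linarith
  have h3 := hrs s hs0 hsr
  rw [intervalIntegral.integral_const, sub_zero, smul_eq_mul] at hlt
  have hpi : 0 < 2 * π := by positivity
  have h4 : (2 * π)⁻¹ * ∫ θ in (0 : ℝ)..(2 * π), h (z1 + s * cexp (θ * I)) < M := by
    rw [inv_mul_lt_iff₀ hpi]
    exact hlt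
  rw [hz1M] at h3
  linarith

theorem A4_poly (p : Polynomial ℂ) (ζ : ℂ) (s : ℝ) :
    (2 * π)⁻¹ * ∫ θ in (0 : ℝ)..(2 * π), (p.eval (ζ + s * cexp (θ * I))).re = (p.eval ζ).re := by
  have h1 : Real.circleAverage (fun z => p.eval z) ζ s = p.eval ζ := by
    apply DiffContOnCl.circleAverage
    exact (Polynomial.differentiable p).diffContOnCl
  rw [Real.circleAverage_def] at h1
  have h2 := congrArg Complex.re h1
  rw [Complex.real_smul] at h2
  have h3 : ∫ θ in (0 : ℝ)..(2 * π), (p.eval (ζ + s * cexp (θ * I))).re =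
      (∫ θ in (0 : ℝ)..(2 * π), p.eval (circleMap ζ s θ)).re := by
    have hint : IntervalIntegrable (fun θ : ℝ => p.eval (circleMap ζ s θ)) volume 0 (2 * π) := by
      apply Continuous.intervalIntegrable
      exact (Polynomial.continuous p).comp (continuous_circleMap ζ s)
    have := Complex.reCLM.intervalIntegral_comp_comm hint
    simpa [circleMap] using this
  rw [h3, ← h2]
  simp

theorem A4_disc (g : ℂ → ℝ) (hc : ContinuousOn g (Metric.closedBall 0 1)) (hloc : A4_loc g) :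
    g 0 ≤ (2 * π)⁻¹ * ∫ θ in (0 : ℝ)..(2 * π), g (cexp (θ * I)) := by
  have hpi : 0 < 2 * π := by positivity
  refine le_of_forall_pos_le_add fun ε hε => ?_
  obtain ⟨p, hp⟩ := A4_approx g (hc.mono Metric.sphere_subset_closedBall) (ε / 2) (by positivity)
  have hmax := A4_max (fun ζ => g ζ - (p.eval ζ).re - ε / 2)
    ((hc.sub (Complex.continuous_re.comp (Polynomial.continuous p)).continuousOn).sub continuousOn_const)
    (by
      intro ζ hζ
      obtain ⟨r, hr, hrs⟩ := hloc ζ hζ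
      refine ⟨min r (1 - ‖ζ‖), lt_min hr (by have : ‖ζ‖ < 1 := by simpa using hζ
                                             linarith), fun s hs0 hs => ?_⟩
      have hsr : s < r := lt_of_lt_of_le hs (min_le_left _ _)
      have hs1' : s < 1 - ‖ζ‖ := lt_of_lt_of_le hs (min_le_right _ _)
      have hmem : ∀ θ : ℝ, ζ + s * cexp (θ * I) ∈ Metric.closedBall (0 : ℂ) 1 := by
        intro θ
        rw [mem_closedBall_zero_iff]
        calc ‖ζ + s * cexp (θ * I)‖ ≤ ‖ζ‖ + ‖(s : ℂ) * cexp (θ * I)‖ := norm_add_le _ _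
          _ = ‖ζ‖ + s := by
            rw [norm_mul, Complex.norm_exp_ofReal_mul_I, mul_one, Complex.norm_real, Real.norm_of_nonneg hs0.le]
          _ ≤ 1 := by linarith
      have hci : Continuous (fun θ : ℝ => g (ζ + s * cexp (θ * I))) :=
        hc.comp_continuous (by fun_prop) hmem
      have hcp : Continuous (fun θ : ℝ => (p.eval (ζ + s * cexp (θ * I))).re) :=
        Complex.continuous_re.comp ((Polynomial.continuous p).comp (by fun_prop))
      have e1 : ∫ θ in (0 : ℝ)..(2 * π), (g (ζ + s * cexp (θ * I)) - (p.eval (ζ + s * cexp (θ * I))).re - ε / 2) =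
          (∫ θ in (0 : ℝ)..(2 * π), g (ζ + s * cexp (θ * I))) -
          (∫ θ in (0 : ℝ)..(2 * π), (p.eval (ζ + s * cexp (θ * I))).re) - (2 * π) * (ε / 2) := by
        have hcs : Continuous (fun θ : ℝ => g (ζ + s * cexp (θ * I)) - (p.eval (ζ + s * cexp (θ * I))).re) :=
          hci.sub hcp
        rw [intervalIntegral.integral_sub (hcs.intervalIntegrable _ _) (continuous_const.intervalIntegrable _ _),
          intervalIntegral.integral_sub (hci.intervalIntegrable _ _) (hcp.intervalIntegrable _ _),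
          intervalIntegral.integral_const, smul_eq_mul, sub_zero]
      rw [e1]
      have e2 := A4_poly p ζ s
      have e3 := hrs s hs0 hsr
      have e4 : (2 * π)⁻¹ * ((∫ θ in (0 : ℝ)..(2 * π), g (ζ + s * cexp (θ * I))) -
          (∫ θ in (0 : ℝ)..(2 * π), (p.eval (ζ + s * cexp (θ * I))).re) - (2 * π) * (ε / 2)) =
          (2 * π)⁻¹ * (∫ θ in (0 : ℝ)..(2 * π), g (ζ + s * cexp (θ * I))) -
          (2 * π)⁻¹ * (∫ θ in (0 : ℝ)..(2 * π), (p.eval (ζ + s * cexp (θ * I))).re) - ε / 2 := by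
        have key : ∀ A B : ℝ, (2 * π)⁻¹ * (A - B - (2 * π) * (ε / 2)) = (2 * π)⁻¹ * A - (2 * π)⁻¹ * B - ε / 2 := by
          intro A B
          field_simp
        exact key _ _
      rw [e4, e2]
      linarith)
    (by
      intro ζ hζ
      have := (abs_lt.1 (hp ζ hζ)).2
      linarith)
  have hmax' : g 0 ≤ (p.eval 0).re + ε / 2 := by
    have : g 0 - (p.eval 0).re - ε / 2 ≤ 0 := hmax
    linarith
  have h2 := A4_poly p 0 1
  have h3 : (2 * π)⁻¹ * ∫ θ in (0 : ℝ)..(2 * π), (p.eval (0 + (1 : ℝ) * cexp (θ * I))).re ≤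
      (2 * π)⁻¹ * (∫ θ in (0 : ℝ)..(2 * π), g (cexp (θ * I))) + ε / 2 := by
    have hmem : ∀ θ : ℝ, cexp (θ * I) ∈ Metric.closedBall (0 : ℂ) 1 := by
      intro θ
      rw [mem_closedBall_zero_iff, Complex.norm_exp_ofReal_mul_I]
    have hci : Continuous (fun θ : ℝ => g (cexp (θ * I))) :=
      hc.comp_continuous (by fun_prop) hmem
    have hcp : Continuous (fun θ : ℝ => (p.eval (0 + (1 : ℝ) * cexp (θ * I))).re) :=
      Complex.continuous_re.comp ((Polynomial.continuous p).comp (by fun_prop))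
    have e1 : ∫ θ in (0 : ℝ)..(2 * π), (p.eval (0 + (1 : ℝ) * cexp (θ * I))).re ≤
        ∫ θ in (0 : ℝ)..(2 * π), (g (cexp (θ * I)) + ε / 2) := by
      refine intervalIntegral.integral_mono_on hpi.le (hcp.intervalIntegrable _ _)
        ((hci.add continuous_const).intervalIntegrable _ _) (fun θ _ => ?_)
      have := (abs_lt.1 (hp (cexp (θ * I)) (Complex.norm_exp_ofReal_mul_I θ))).1
      have e : (0 : ℂ) + ((1 : ℝ) : ℂ) * cexp (θ * I) = cexp (θ * I) := by simp
      rw [e]
      linarith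
    rw [intervalIntegral.integral_add (hci.intervalIntegrable _ _) (continuous_const.intervalIntegrable _ _),
      intervalIntegral.integral_const, smul_eq_mul, sub_zero] at e1
    have key : ∀ A : ℝ, (2 * π)⁻¹ * (A + (2 * π) * (ε / 2)) = (2 * π)⁻¹ * A + ε / 2 := by
      intro A
      field_simp
    calc _ ≤ (2 * π)⁻¹ * ((∫ θ in (0 : ℝ)..(2 * π), g (cexp (θ * I))) + 2 * π * (ε / 2)) := by gcongr
      _ = _ := key _
  rw [h2] at h3
  linarith

theorem A4 : A4_stmt := by
  intro U u hU hu hloc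
  refine ⟨hu, fun x ξ hd => ?_⟩
  have hcl : ∀ ζ : ℂ, ζ ∈ Metric.closedBall (0 : ℂ) 1 → x + ζ • ξ ∈ U := by
    intro ζ hζ
    exact hd ⟨ζ, by simpa using hζ, rfl⟩
  have h := A4_disc (fun ζ => u (x + ζ • ξ))
    (hu.comp (by fun_prop) hcl)
    (by
      intro ζ hζ
      obtain ⟨r, hr, hrs⟩ := hloc (x + ζ • ξ) (hcl ζ (Metric.ball_subset_closedBall hζ))
      refine ⟨r / (‖ξ‖ + 1), by positivity, fun s hs0 hs => ?_⟩
      have h1 : ‖(s : ℂ) • ξ‖ < r := by
        rw [norm_smul, Complex.norm_real, Real.norm_of_nonneg hs0.le]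
        rw [lt_div_iff₀ (by positivity)] at hs
        have : 0 ≤ ‖ξ‖ := norm_nonneg _
        nlinarith
      have h2 := hrs ((s : ℂ) • ξ) h1
      unfold mean at h2
      have e : ∀ θ : ℝ, x + ζ • ξ + cexp (θ * I) • (s : ℂ) • ξ = x + (ζ + s * cexp (θ * I)) • ξ := by
        intro θ
        rw [add_smul, smul_smul, mul_comm (cexp (θ * I)), add_assoc]
      simp only [e] at h2
      exact h2)
  simp only [zero_smul, add_zero] at h
  exact h

end

end MAP
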