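import Pool.Agent.helper50.MA.Spec1

/-! # Project ma (MP_0012ff_an): B4 -/

set_option autoImplicit false

open MeasureTheory Set Filter Topology Complex
open scoped ContDiff Real

namespace MAP

noncomputable section

/-! ### 1. two-sided second differences give `C^{1,1}` -/

section Z

variable {E : Type} [NormedAddCommGroup E] [NormedSpace ℝ E]

/-- dyadic difference quotients -/
def B4_a (u : E → ℝ) (x : E) (n : ℕ) (h : E) : ℝ := 2 ^ n * (u (x + ((2 : ℝ) ^ n)⁻¹ • h) - u x)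

theorem B4_exists (u : E → ℝ) (x : E) (r C : ℝ) (hr : 0 < r) (hC : 0 ≤ C) (hcu : ContinuousAt u x)
    (H : ∀ y h : E, ‖y - x‖ < r → ‖h‖ < r → |u (y + h) + u (y - h) - 2 * u y| ≤ C * ‖h‖ ^ 2) :
    ∃ G : E →L[ℝ] ℝ, ∀ h : E, ‖h‖ < r → |u (x + h) - u x - G h| ≤ 2 * C * ‖h‖ ^ 2 := by
  -- one step
  have hstep : ∀ (n : ℕ) (h k : E), ((2 : ℝ) ^ n)⁻¹ * ‖h‖ < r → ((2 : ℝ) ^ n)⁻¹ * ‖k‖ < r →
      |B4_a u x n h + B4_a u x n k - B4_a u x (n + 1) (h + k)| ≤ C * ‖h - k‖ ^ 2 * ((2 : ℝ) ^ n)⁻¹ := by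
    intro n h k hh hk
    have h2n : (0 : ℝ) < 2 ^ n := by positivity
    set c : ℝ := ((2 : ℝ) ^ n)⁻¹ with hc
    have hc0 : 0 < c := inv_pos.2 h2n
    have hc1 : (2 : ℝ) ^ n * c = 1 := mul_inv_cancel₀ h2n.ne'
    have hy : ‖(x + (c / 2) • (h + k)) - x‖ < r := by
      rw [add_sub_cancel_left, norm_smul, Real.norm_of_nonneg (by positivity)]
      calc c / 2 * ‖h + k‖ ≤ c / 2 * (‖h‖ + ‖k‖) := by gcongr; exact norm_add_le _ _
        _ < r := by nlinarith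
    have ht : ‖(c / 2) • (h - k)‖ < r := by
      rw [norm_smul, Real.norm_of_nonneg (by positivity)]
      calc c / 2 * ‖h - k‖ ≤ c / 2 * (‖h‖ + ‖k‖) := by gcongr; exact norm_sub_le _ _
        _ < r := by nlinarith
    have h1 := H _ _ hy ht
    have e1 : x + (c / 2) • (h + k) + (c / 2) • (h - k) = x + c • h := by
      module
    have e2 : x + (c / 2) • (h + k) - (c / 2) • (h - k) = x + c • k := by
      module
    rw [e1, e2, norm_smul, Real.norm_of_nonneg (show 0 ≤ c / 2 by positivity)] at h1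
    have e3 : ((2 : ℝ) ^ (n + 1))⁻¹ = c / 2 := by
      rw [hc, pow_succ, mul_inv]; ring
    have e4 : B4_a u x n h + B4_a u x n k - B4_a u x (n + 1) (h + k) =
        2 ^ n * (u (x + c • h) + u (x + c • k) - 2 * u (x + (c / 2) • (h + k))) := by
      unfold B4_a
      rw [e3, ← hc, pow_succ]
      ring
    rw [e4, abs_mul, abs_of_pos h2n]
    calc (2 : ℝ) ^ n * |u (x + c • h) + u (x + c • k) - 2 * u (x + (c / 2) • (h + k))|
        ≤ 2 ^ n * (C * (c / 2 * ‖h - k‖) ^ 2) := by gcongr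
      _ = C * ‖h - k‖ ^ 2 * ((2 ^ n * c) * c / 4) := by ring
      _ = C * ‖h - k‖ ^ 2 * (c / 4) := by rw [hc1, one_mul]
      _ ≤ C * ‖h - k‖ ^ 2 * c := by
        have : 0 ≤ C * ‖h - k‖ ^ 2 := by positivity
        nlinarith
  have hself : ∀ (n : ℕ) (h : E), ((2 : ℝ) ^ n)⁻¹ * ‖h‖ < r →
      |B4_a u x n h - B4_a u x (n + 1) h| ≤ C * ‖h‖ ^ 2 * ((2 : ℝ) ^ n)⁻¹ := by
    intro n h hh
    have h1 := hstep n h 0 hh (by simpa using hr)
    have e0 : B4_a u x n 0 = 0 := by simp [B4_a]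
    rw [e0, add_zero, add_zero, sub_zero] at h1
    exact h1
  have hsmall : ∀ h : E, ∃ N : ℕ, ∀ n, N ≤ n → ((2 : ℝ) ^ n)⁻¹ * ‖h‖ < r := by
    intro h
    have ht : Tendsto (fun n : ℕ => ((2 : ℝ) ^ n)⁻¹ * ‖h‖) atTop (𝓝 (0 * ‖h‖)) := by
      apply Tendsto.mul_const
      exact tendsto_inv_atTop_zero.comp (tendsto_pow_atTop_atTop_of_one_lt (by norm_num))
    rw [zero_mul] at ht
    exact eventually_atTop.1 (ht.eventually (gt_mem_nhds hr))
  -- limits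
  have hlim : ∀ h : E, ∃ L : ℝ, Tendsto (fun n => B4_a u x n h) atTop (𝓝 L) := by
    intro h
    obtain ⟨N, hN⟩ := hsmall h
    have hcs : CauchySeq (fun n => B4_a u x (n + N) h) := by
      refine cauchySeq_of_le_geometric (1 / 2) (C * ‖h‖ ^ 2) (by norm_num) fun n => ?_
      rw [Real.dist_eq]
      have h1 := hself (n + N) h (hN _ (by omega))
      have e : n + 1 + N = n + N + 1 := by ring
      rw [e]
      refine h1.trans ?_
      have h2 : ((2 : ℝ) ^ (n + N))⁻¹ ≤ (1 / 2) ^ n := by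
        rw [one_div, inv_pow]
        apply inv_anti₀ (by positivity)
        exact pow_le_pow_right₀ (by norm_num) (by omega)
      have : 0 ≤ C * ‖h‖ ^ 2 := by positivity
      exact mul_le_mul_of_nonneg_left h2 this
    obtain ⟨L, hL⟩ := cauchySeq_tendsto_of_complete hcs
    exact ⟨L, (tendsto_add_atTop_iff_nat N).1 hL⟩
  choose L hL using hlim
  have hadd : ∀ h k : E, L (h + k) = L h + L k := by
    intro h k
    obtain ⟨N1, hN1⟩ := hsmall h
    obtain ⟨N2, hN2⟩ := hsmall k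
    have h1 : Tendsto (fun n => B4_a u x n h + B4_a u x n k - B4_a u x (n + 1) (h + k)) atTop
        (𝓝 (L h + L k - L (h + k))) :=
      ((hL h).add (hL k)).sub ((tendsto_add_atTop_iff_nat 1).2 (hL (h + k)))
    have h2 : Tendsto (fun n => B4_a u x n h + B4_a u x n k - B4_a u x (n + 1) (h + k)) atTop (𝓝 0) := by
      have hz : Tendsto (fun n : ℕ => C * ‖h - k‖ ^ 2 * ((2 : ℝ) ^ n)⁻¹) atTop (𝓝 (C * ‖h - k‖ ^ 2 * 0)) := by
        apply Tendsto.const_mul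
        exact tendsto_inv_atTop_zero.comp (tendsto_pow_atTop_atTop_of_one_lt (by norm_num))
      rw [mul_zero] at hz
      refine squeeze_zero_norm' ?_ hz
      filter_upwards [eventually_ge_atTop (max N1 N2)] with n hn
      rw [Real.norm_eq_abs]
      exact hstep n h k (hN1 n (le_trans (le_max_left _ _) hn)) (hN2 n (le_trans (le_max_right _ _) hn))
    have h3 := tendsto_nhds_unique h1 h2
    linarith
  have hest : ∀ h : E, ‖h‖ < r → |u (x + h) - u x - L h| ≤ 2 * C * ‖h‖ ^ 2 := by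
    intro h hh
    have hn : ∀ n : ℕ, ((2 : ℝ) ^ n)⁻¹ * ‖h‖ < r := by
      intro n
      have h1 : ((2 : ℝ) ^ n)⁻¹ ≤ 1 := inv_le_one_of_one_le₀ (one_le_pow₀ (by norm_num))
      have := norm_nonneg h
      nlinarith
    have h1 := dist_le_of_le_geometric_of_tendsto₀ (1 / 2) (C * ‖h‖ ^ 2) (by norm_num)
      (f := fun n => B4_a u x n h) (fun n => by
        rw [Real.dist_eq]
        refine (hself n h (hn n)).trans ?_
        rw [one_div, inv_pow]) (hL h)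
    rw [Real.dist_eq] at h1
    have e : B4_a u x 0 h = u (x + h) - u x := by simp [B4_a]
    rw [e] at h1
    refine h1.trans (le_of_eq ?_)
    norm_num
    ring
  have hcont0 : ContinuousAt L 0 := by
    have hL0 : L 0 = 0 := by
      have := hadd 0 0
      simp at this
      exact this
    unfold ContinuousAt
    rw [hL0]
    have h1 : Tendsto (fun h : E => |u (x + h) - u x| + 2 * C * ‖h‖ ^ 2) (𝓝 0) (𝓝 0) := by
      have h2 : ContinuousAt (fun h : E => |u (x + h) - u x| + 2 * C * ‖h‖ ^ 2) 0 := by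
        have h3 : ContinuousAt (fun h : E => u (x + h)) 0 := by
          apply ContinuousAt.comp (g := u) (f := fun h => x + h)
          · simpa using hcu
          · fun_prop
        exact (h3.sub continuousAt_const).abs.add (by fun_prop)
      have h4 := h2.tendsto
      simpa using h4
    refine squeeze_zero_norm' ?_ h1
    have : ∀ᶠ h : E in 𝓝 0, ‖h‖ < r := by
      have := Metric.ball_mem_nhds (0 : E) hr
      filter_upwards [this] with h hh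
      simpa using hh
    filter_upwards [this] with h hh
    rw [Real.norm_eq_abs]
    have h5 := hest h hh
    have h6 : |L h| ≤ |u (x + h) - u x| + |u (x + h) - u x - L h| := by
      have e : L h = (u (x + h) - u x) - (u (x + h) - u x - L h) := by ring
      calc |L h| = |(u (x + h) - u x) - (u (x + h) - u x - L h)| := by rw [← e]
        _ ≤ _ := abs_sub _ _
    linarith
  let Lh : E →+ ℝ := AddMonoidHom.mk' L hadd
  have hLc : Continuous Lh := continuous_of_continuousAt_zero Lh hcont0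
  exact ⟨Lh.toRealLinearMap hLc, fun h hh => hest h hh⟩

/-- norm of the derivative -/
theorem B4_norm (G : E →L[ℝ] ℝ) (r B : ℝ) (hr : 0 < r) (hB : 0 ≤ B) (h : ∀ v : E, ‖v‖ = r → |G v| ≤ B) :
    ‖G‖ ≤ B / r := by
  refine ContinuousLinearMap.opNorm_le_bound _ (by positivity) fun v => ?_
  rcases eq_or_ne v 0 with rfl | hv
  · simp
  have hv' : 0 < ‖v‖ := norm_pos_iff.2 hv
  have h1 := h ((r / ‖v‖) • v) (by
    rw [norm_smul, Real.norm_of_nonneg (by positivity)]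
    field_simp)
  rw [map_smul, smul_eq_mul, abs_mul, abs_of_pos (show 0 < r / ‖v‖ by positivity)] at h1
  rw [Real.norm_eq_abs]
  have h2 : |G v| = (‖v‖ / r) * (r / ‖v‖ * |G v|) := by
    field_simp
  rw [h2]
  calc (‖v‖ / r) * (r / ‖v‖ * |G v|) ≤ (‖v‖ / r) * B := by gcongr
    _ = B / r * ‖v‖ := by ring

/-- Lipschitz continuity of the derivative, nearby points -/
theorem B4_lip (u : E → ℝ) (x y : E) (r C : ℝ) (hC : 0 ≤ C) (Gx Gy : E →L[ℝ] ℝ)
    (hx : ∀ h : E, ‖h‖ < r → |u (x + h) - u x - Gx h| ≤ C * ‖h‖ ^ 2)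
    (hy : ∀ h : E, ‖h‖ < r → |u (y + h) - u y - Gy h| ≤ C * ‖h‖ ^ 2) (hxy : 2 * ‖x - y‖ < r)
    (hne : x ≠ y) : ‖Gx - Gy‖ ≤ 6 * C * ‖x - y‖ := by
  have hs : 0 < ‖x - y‖ := norm_pos_iff.2 (sub_ne_zero.2 hne)
  set s := ‖x - y‖ with hsdef
  have hks : ‖y - x‖ = s := norm_sub_rev y x
  have h1 := B4_norm (Gx - Gy) s (6 * C * s ^ 2) hs (by positivity) (fun h hh => by
    have a1 := hy h (by rw [hh]; linarith)
    have hhk : ‖h + (y - x)‖ ≤ 2 * s := by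
      calc ‖h + (y - x)‖ ≤ ‖h‖ + ‖y - x‖ := norm_add_le _ _
        _ = 2 * s := by rw [hh, hks]; ring
    have a2 := hx (h + (y - x)) (by linarith)
    have a3 := hx (y - x) (by rw [hks]; linarith)
    have e1 : x + (h + (y - x)) = y + h := by abel
    have e2 : x + (y - x) = y := by abel
    rw [e1, map_add] at a2
    rw [e2] at a3
    have hsq : ‖h + (y - x)‖ ^ 2 ≤ 4 * s ^ 2 := by
      have := norm_nonneg (h + (y - x))
      nlinarith
    have b2 : C * ‖h + (y - x)‖ ^ 2 ≤ C * (4 * s ^ 2) := mul_le_mul_of_nonneg_left hsq hC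
    rw [hh] at a1
    rw [hks] at a3
    have e3 : (Gx - Gy) h = (u (y + h) - u y - Gy h) - (u (y + h) - u x - (Gx h + Gx (y - x))) +
        (u y - u x - Gx (y - x)) := by
      simp only [_root_.sub_apply]
      ring
    rw [e3]
    rw [abs_le] at a1 a2 a3 ⊢
    constructor <;> nlinarith [a1.1, a1.2, a2.1, a2.2, a3.1, a3.2])
  refine h1.trans (le_of_eq ?_)
  field_simp

theorem B4_deriv (u : E → ℝ) (x : E) (r C : ℝ) (hr : 0 < r) (hC : 0 ≤ C) (G : E →L[ℝ] ℝ)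
    (hx : ∀ h : E, ‖h‖ < r → |u (x + h) - u x - G h| ≤ C * ‖h‖ ^ 2) : HasFDerivAt u G x := by
  rw [hasFDerivAt_iff_isLittleO_nhds_zero, Asymptotics.isLittleO_iff]
  intro c hc
  have hr' : 0 < min r (c / (C + 1)) := lt_min hr (by positivity)
  filter_upwards [Metric.ball_mem_nhds (0 : E) hr'] with h hh
  rw [Metric.mem_ball, dist_zero_right] at hh
  rw [Real.norm_eq_abs]
  refine (hx h (lt_of_lt_of_le hh (min_le_left _ _))).trans ?_
  have h1 : ‖h‖ < c / (C + 1) := lt_of_lt_of_le hh (min_le_right _ _)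
  rw [lt_div_iff₀ (by positivity)] at h1
  have h2 := norm_nonneg h
  nlinarith

end Z

/-! ### 2. the lower bound from plurisubharmonicity -/

theorem B4_1d (φ : ℝ → ℝ) (hc : ContinuousOn φ (Icc 0 1))
    (hm : ∀ s t : ℝ, 0 < t → 0 ≤ s - t → s + t ≤ 1 → φ s ≤ (φ (s + t) + φ (s - t)) / 2)
    (h01 : φ 0 ≤ φ 1) : ∀ s ∈ Icc (0 : ℝ) 1, φ s ≤ φ 1 := by
  intro s0 hs0
  by_contra hcon
  push Not at hcon
  obtain ⟨t0, ht0, ht0m⟩ := isCompact_Icc.exists_isMaxOn ⟨s0, hs0⟩ hc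
  set M := φ t0 with hM
  have hM1 : φ 1 < M := lt_of_lt_of_le hcon (ht0m hs0)
  have hKc : IsCompact (Icc (0 : ℝ) 1 ∩ φ ⁻¹' {M}) :=
    isCompact_Icc.of_isClosed_subset
      (hc.preimage_isClosed_of_isClosed isClosed_Icc isClosed_singleton) inter_subset_left
  obtain ⟨s1, hs1, hs1m⟩ := hKc.exists_isMaxOn ⟨t0, ht0, rfl⟩ continuous_id.continuousOn
  have hs1M : φ s1 = M := hs1.2
  have h0 : 0 < s1 := by
    rcases hs1.1.1.eq_or_lt with h | h
    · rw [← h] at hs1M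
      linarith
    · exact h
  have h1 : s1 < 1 := by
    rcases hs1.1.2.eq_or_lt with h | h
    · rw [h] at hs1M
      linarith
    · exact h
  set t := min s1 (1 - s1) with ht
  have htpos : 0 < t := lt_min h0 (by linarith)
  have hta : t ≤ s1 := min_le_left _ _
  have htb : t ≤ 1 - s1 := min_le_right _ _
  have h2 := hm s1 t htpos (by linarith) (by linarith)
  have hp : s1 + t ∈ Icc (0 : ℝ) 1 := ⟨by linarith, by linarith⟩
  have hq : s1 - t ∈ Icc (0 : ℝ) 1 := ⟨by linarith, by linarith⟩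
  have h3 : φ (s1 - t) ≤ M := ht0m hq
  have h4 : φ (s1 + t) < M := by
    refine lt_of_le_of_ne (ht0m hp) ?_
    intro heq
    have h5 : s1 + t ∈ Icc (0 : ℝ) 1 ∩ φ ⁻¹' {M} := ⟨hp, heq⟩
    have h6 : s1 + t ≤ s1 := hs1m h5
    linarith
  rw [hs1M] at h2
  linarith

theorem B4_ray (Φ : ℂ → ℝ) (hc : ContinuousOn Φ (Metric.closedBall 0 2)) (h0 : Φ 0 = 0)
    (hpos : ∀ ζ : ℂ, ‖ζ‖ ≤ 2 → 0 ≤ Φ ζ)
    (hm : ∀ ζ t : ℂ, ‖ζ‖ ≤ 2 → ‖ζ + t‖ ≤ 2 → ‖ζ - t‖ ≤ 2 → Φ ζ ≤ (Φ (ζ + t) + Φ (ζ - t)) / 2)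
    (z : ℂ) (hz : ‖z‖ ≤ 2) (s : ℝ) (hs : s ∈ Icc (0 : ℝ) 1) : Φ (s * z) ≤ Φ z := by
  have hn : ∀ t : ℝ, t ∈ Icc (0 : ℝ) 1 → ‖(t : ℂ) * z‖ ≤ 2 := by
    intro t ht
    rw [norm_mul, Complex.norm_real, Real.norm_of_nonneg ht.1]
    have := norm_nonneg z
    nlinarith [ht.1, ht.2]
  have h1 := B4_1d (fun t : ℝ => Φ (t * z)) (hc.comp (by fun_prop) (fun t ht => by
      rw [mem_closedBall_zero_iff]
      exact hn t ht))
    (fun a b hb hab hab' => by
      have e1 : ((a + b : ℝ) : ℂ) * z = a * z + b * z := by push_cast; ring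
      have e2 : ((a - b : ℝ) : ℂ) * z = a * z - b * z := by push_cast; ring
      show Φ (a * z) ≤ (Φ (((a + b : ℝ) : ℂ) * z) + Φ (((a - b : ℝ) : ℂ) * z)) / 2
      rw [e1, e2]
      refine hm _ _ (hn a ⟨by linarith, by linarith⟩) ?_ ?_
      · rw [← e1]; exact hn _ ⟨by linarith, by linarith⟩
      · rw [← e2]; exact hn _ ⟨by linarith, by linarith⟩)
    (by
      show Φ (((0 : ℝ) : ℂ) * z) ≤ Φ (((1 : ℝ) : ℂ) * z)
      simp only [ofReal_zero, zero_mul, ofReal_one, one_mul, h0]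
      exact hpos z hz) s hs
  have h2 : Φ (s * z) ≤ Φ (((1 : ℝ) : ℂ) * z) := h1
  simpa using h2

theorem B4_core (Φ : ℂ → ℝ) (hc : ContinuousOn Φ (Metric.closedBall 0 2)) (h0 : Φ 0 = 0)
    (hpos : ∀ ζ : ℂ, ‖ζ‖ ≤ 2 → 0 ≤ Φ ζ)
    (hm : ∀ ζ t : ℂ, ‖ζ‖ ≤ 2 → ‖ζ + t‖ ≤ 2 → ‖ζ - t‖ ≤ 2 → Φ ζ ≤ (Φ (ζ + t) + Φ (ζ - t)) / 2) :
    π / 3 * Φ 1 ≤ ∫ θ in (0 : ℝ)..(2 * π), Φ (2 * cexp (θ * I)) := by
  have hpi : 0 < π := Real.pi_pos
  have hn : ∀ θ : ℝ, ‖2 * cexp (θ * I)‖ ≤ 2 := by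
    intro θ
    rw [norm_mul, Complex.norm_exp_ofReal_mul_I]
    simp
  have hn' : ∀ θ : ℝ, ‖2 * cexp (-(θ * I))‖ ≤ 2 := by
    intro θ
    have := hn (-θ)
    push_cast at this
    rwa [neg_mul] at this
  have hc1 : Continuous (fun θ : ℝ => Φ (2 * cexp (θ * I))) :=
    hc.comp_continuous (by fun_prop) (fun θ => by rw [mem_closedBall_zero_iff]; exact hn θ)
  have hc2 : Continuous (fun θ : ℝ => Φ (2 * cexp (-(θ * I)))) :=
    hc.comp_continuous (by fun_prop) (fun θ => by rw [mem_closedBall_zero_iff]; exact hn' θ)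
  have hpt : ∀ θ ∈ Icc (0 : ℝ) (π / 3), Φ 1 ≤ (Φ (2 * cexp (θ * I)) + Φ (2 * cexp (-(θ * I)))) / 2 := by
    intro θ hθ
    have hcos : 1 / 2 ≤ Real.cos θ := by
      rw [← Real.cos_pi_div_three]
      exact Real.cos_le_cos_of_nonneg_of_le_pi hθ.1 (by linarith) hθ.2
    have hcpos : 0 < Real.cos θ := by linarith
    set c := Real.cos θ with hcdef
    have hl : 1 / (2 * c) ∈ Icc (0 : ℝ) 1 := by
      refine ⟨by positivity, ?_⟩
      rw [div_le_one (by positivity)]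
      linarith
    have r1 := B4_ray Φ hc h0 hpos hm _ (hn θ) _ hl
    have r2 := B4_ray Φ hc h0 hpos hm _ (hn' θ) _ hl
    have hc0 : (c : ℂ) ≠ 0 := by exact_mod_cast hcpos.ne'
    have hsum : cexp (θ * I) + cexp (-(θ * I)) = 2 * c := by
      rw [hcdef, Complex.ofReal_cos, Complex.cos]
      rw [neg_mul]
      ring
    have e1 : (1 : ℂ) + ((1 / (2 * c) : ℝ) * (2 * cexp (θ * I)) - 1) =
        (1 / (2 * c) : ℝ) * (2 * cexp (θ * I)) := by ring
    have e2 : (1 : ℂ) - ((1 / (2 * c) : ℝ) * (2 * cexp (θ * I)) - 1) =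
        (1 / (2 * c) : ℝ) * (2 * cexp (-(θ * I))) := by
      have h3 : cexp (-(θ * I)) = 2 * c - cexp (θ * I) := by rw [← hsum]; ring
      rw [h3]
      push_cast
      field_simp
      ring
    have hb1 : ‖((1 / (2 * c) : ℝ) : ℂ) * (2 * cexp (θ * I))‖ ≤ 2 := by
      rw [norm_mul, Complex.norm_real, Real.norm_of_nonneg hl.1]
      have := hn θ
      have := norm_nonneg (2 * cexp (θ * I))
      nlinarith [hl.1, hl.2]
    have hb2 : ‖((1 / (2 * c) : ℝ) : ℂ) * (2 * cexp (-(θ * I)))‖ ≤ 2 := by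
      rw [norm_mul, Complex.norm_real, Real.norm_of_nonneg hl.1]
      have := hn' θ
      have := norm_nonneg (2 * cexp (-(θ * I)))
      nlinarith [hl.1, hl.2]
    have h4 := hm 1 ((1 / (2 * c) : ℝ) * (2 * cexp (θ * I)) - 1) (by simp) (by rw [e1]; exact hb1)
      (by rw [e2]; exact hb2)
    rw [e1, e2] at h4
    linarith
  have i1 : π / 3 * Φ 1 = ∫ θ in (0 : ℝ)..(π / 3), Φ 1 := by
    rw [intervalIntegral.integral_const, smul_eq_mul, sub_zero]
  have hcs : Continuous (fun θ : ℝ => (Φ (2 * cexp (θ * I)) + Φ (2 * cexp (-(θ * I)))) / 2) :=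
    (hc1.add hc2).div_const 2
  have i2 : ∫ θ in (0 : ℝ)..(π / 3), Φ 1 ≤
      ∫ θ in (0 : ℝ)..(π / 3), (Φ (2 * cexp (θ * I)) + Φ (2 * cexp (-(θ * I)))) / 2 :=
    intervalIntegral.integral_mono_on (by positivity) (continuous_const.intervalIntegrable _ _)
      (hcs.intervalIntegrable _ _) hpt
  have i3 : ∫ θ in (0 : ℝ)..(π / 3), (Φ (2 * cexp (θ * I)) + Φ (2 * cexp (-(θ * I)))) / 2 ≤
      ∫ θ in (0 : ℝ)..(2 * π), (Φ (2 * cexp (θ * I)) + Φ (2 * cexp (-(θ * I)))) / 2 := by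
    refine intervalIntegral.integral_mono_interval le_rfl (by positivity) (by linarith) ?_
      (hcs.intervalIntegrable _ _)
    refine Eventually.of_forall fun θ => ?_
    have a1 := hpos _ (hn θ)
    have a2 := hpos _ (hn' θ)
    show 0 ≤ (Φ (2 * cexp (θ * I)) + Φ (2 * cexp (-(θ * I)))) / 2
    linarith
  have i4 : ∫ θ in (0 : ℝ)..(2 * π), Φ (2 * cexp (-(θ * I))) =
      ∫ θ in (0 : ℝ)..(2 * π), Φ (2 * cexp (θ * I)) := by
    have h5 := intervalIntegral.integral_comp_sub_left (a := 0) (b := 2 * π)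
      (fun θ : ℝ => Φ (2 * cexp (-(θ * I)))) (2 * π)
    rw [sub_self, sub_zero] at h5
    rw [← h5]
    congr 1
    ext θ
    congr 2
    have e : -((((2 * π - θ : ℝ) : ℂ)) * I) = θ * I + ((-1 : ℤ) : ℂ) * (2 * π * I) := by
      push_cast
      ring
    rw [e, Complex.exp_add, Complex.exp_int_mul_two_pi_mul_I, mul_one]
  have i5 : ∫ θ in (0 : ℝ)..(2 * π), (Φ (2 * cexp (θ * I)) + Φ (2 * cexp (-(θ * I)))) / 2 =
      ∫ θ in (0 : ℝ)..(2 * π), Φ (2 * cexp (θ * I)) := by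
    rw [intervalIntegral.integral_div, intervalIntegral.integral_add (hc1.intervalIntegrable _ _)
      (hc2.intervalIntegrable _ _), i4]
    ring
  linarith

theorem B4_nsq_smul (t : ℂ) (ξ : C2) : nsq (t • ξ) = ‖t‖ ^ 2 * nsq ξ := by
  simp only [nsq, Prod.smul_fst, Prod.smul_snd, smul_eq_mul, norm_mul]
  ring

theorem B4_nsq_nonneg (ξ : C2) : 0 ≤ nsq ξ := by
  unfold nsq; positivity

/-- lower bound for a second difference -/
theorem B4_S (u : C2 → ℝ) (x ξ : C2) (C : ℝ)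
    (hcu : ContinuousOn (fun ζ : ℂ => u (x + ζ • ξ)) (Metric.closedBall 0 2))
    (hS : ∀ ζ t : ℂ, ‖ζ‖ ≤ 2 → ‖t‖ ≤ 2 →
      u (x + ζ • ξ + t • ξ) + u (x + ζ • ξ - t • ξ) - 2 * u (x + ζ • ξ) ≤ C * (‖t‖ ^ 2 * nsq ξ))
    (hm1 : u x ≤ mean u x ((2 : ℂ) • ξ)) (hm2 : u x ≤ mean u x ((-2 : ℂ) • ξ)) :
    -(23 * C * nsq ξ) ≤ u (x + ξ) + u (x - ξ) - 2 * u x := by
  have hpi : 0 < π := Real.pi_pos
  set N := nsq ξ with hN
  let Φ : ℂ → ℝ := fun ζ => C * (‖ζ‖ ^ 2 * N) - u (x + ζ • ξ) - u (x + (-ζ) • ξ) + 2 * u x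
  have hcu' : ContinuousOn (fun ζ : ℂ => u (x + (-ζ) • ξ)) (Metric.closedBall 0 2) :=
    hcu.comp (f := fun ζ : ℂ => -ζ) (by fun_prop) (fun ζ hζ => by simpa using hζ)
  have hΦc : ContinuousOn Φ (Metric.closedBall 0 2) := by
    refine ContinuousOn.add (ContinuousOn.sub (ContinuousOn.sub ?_ hcu) hcu') continuousOn_const
    exact (by fun_prop : Continuous fun ζ : ℂ => C * (‖ζ‖ ^ 2 * N)).continuousOn
  have h0 : Φ 0 = 0 := by
    simp only [Φ, norm_zero, neg_zero, zero_smul, add_zero]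
    ring
  have hpos : ∀ ζ : ℂ, ‖ζ‖ ≤ 2 → 0 ≤ Φ ζ := by
    intro ζ hζ
    have h1 := hS 0 ζ (by simp) hζ
    simp only [zero_smul, add_zero] at h1
    have e : x + (-ζ) • ξ = x - ζ • ξ := by rw [neg_smul, sub_eq_add_neg]
    simp only [Φ]
    rw [e]
    linarith
  have hmid : ∀ ζ t : ℂ, ‖ζ‖ ≤ 2 → ‖ζ + t‖ ≤ 2 → ‖ζ - t‖ ≤ 2 → Φ ζ ≤ (Φ (ζ + t) + Φ (ζ - t)) / 2 := by
    intro ζ t hζ hp hq
    have ht : ‖t‖ ≤ 2 := by
      have e : t = (1 / 2 : ℂ) * ((ζ + t) - (ζ - t)) := by ring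
      have h3 : ‖(ζ + t) - (ζ - t)‖ ≤ 4 := (norm_sub_le _ _).trans (by linarith)
      rw [e, norm_mul]
      have h4 : ‖(1 / 2 : ℂ)‖ = 1 / 2 := by simp
      rw [h4]
      linarith
    have h1 := hS ζ t hζ ht
    have h2 := hS (-ζ) (-t) (by simpa using hζ) (by simpa using ht)
    have e1 : x + ζ • ξ + t • ξ = x + (ζ + t) • ξ := by module
    have e2 : x + ζ • ξ - t • ξ = x + (ζ - t) • ξ := by module
    have e3 : x + (-ζ) • ξ + (-t) • ξ = x + (-(ζ + t)) • ξ := by module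
    have e4 : x + (-ζ) • ξ - (-t) • ξ = x + (-(ζ - t)) • ξ := by module
    rw [e1, e2] at h1
    rw [e3, e4, norm_neg] at h2
    have hpar : ‖ζ + t‖ ^ 2 + ‖ζ - t‖ ^ 2 = 2 * ‖ζ‖ ^ 2 + 2 * ‖t‖ ^ 2 := by
      have := parallelogram_law_with_norm ℝ ζ t
      nlinarith
    simp only [Φ]
    have hpar2 : C * (‖ζ + t‖ ^ 2 * N) + C * (‖ζ - t‖ ^ 2 * N) = 2 * (C * (‖ζ‖ ^ 2 * N)) + 2 * (C * (‖t‖ ^ 2 * N)) := by
      calc C * (‖ζ + t‖ ^ 2 * N) + C * (‖ζ - t‖ ^ 2 * N) = C * N * (‖ζ + t‖ ^ 2 + ‖ζ - t‖ ^ 2) := by ring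
        _ = C * N * (2 * ‖ζ‖ ^ 2 + 2 * ‖t‖ ^ 2) := by rw [hpar]
        _ = _ := by ring
    linarith
  have hcore := B4_core Φ hΦc h0 hpos hmid
  -- the integral
  have hn : ∀ θ : ℝ, ‖2 * cexp (θ * I)‖ = 2 := by
    intro θ
    rw [norm_mul, Complex.norm_exp_ofReal_mul_I]
    simp
  have c1 : Continuous (fun θ : ℝ => u (x + (2 * cexp (θ * I)) • ξ)) :=
    hcu.comp_continuous (by fun_prop) (fun θ => by rw [mem_closedBall_zero_iff]; exact (hn θ).le)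
  have c2 : Continuous (fun θ : ℝ => u (x + (-(2 * cexp (θ * I))) • ξ)) :=
    hcu'.comp_continuous (by fun_prop) (fun θ => by rw [mem_closedBall_zero_iff]; exact (hn θ).le)
  have i1 : ∫ θ in (0 : ℝ)..(2 * π), Φ (2 * cexp (θ * I)) =
      2 * π * (C * (4 * N) + 2 * u x) - (∫ θ in (0 : ℝ)..(2 * π), u (x + (2 * cexp (θ * I)) • ξ)) -
        ∫ θ in (0 : ℝ)..(2 * π), u (x + (-(2 * cexp (θ * I))) • ξ) := by
    have e : ∀ θ : ℝ, Φ (2 * cexp (θ * I)) = (C * (4 * N) + 2 * u x) -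
        u (x + (2 * cexp (θ * I)) • ξ) - u (x + (-(2 * cexp (θ * I))) • ξ) := by
      intro θ
      simp only [Φ]
      rw [hn θ]
      ring
    simp only [e]
    have c3 : Continuous (fun θ : ℝ => (C * (4 * N) + 2 * u x) - u (x + (2 * cexp (θ * I)) • ξ)) :=
      continuous_const.sub c1
    rw [intervalIntegral.integral_sub (c3.intervalIntegrable _ _) (c2.intervalIntegrable _ _),
      intervalIntegral.integral_sub (continuous_const.intervalIntegrable _ _) (c1.intervalIntegrable _ _),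
      intervalIntegral.integral_const, smul_eq_mul, sub_zero]
  unfold mean at hm1 hm2
  have s1 : ∀ θ : ℝ, cexp (θ * I) • (2 : ℂ) • ξ = (2 * cexp (θ * I)) • ξ := fun θ => by
    rw [smul_smul, mul_comm]
  have s2 : ∀ θ : ℝ, cexp (θ * I) • (-2 : ℂ) • ξ = (-(2 * cexp (θ * I))) • ξ := fun θ => by
    rw [smul_smul]
    congr 1
    ring
  simp only [s1] at hm1
  simp only [s2] at hm2
  rw [inv_mul_eq_div, le_div_iff₀ (by positivity)] at hm1 hm2
  rw [i1] at hcore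
  have hΦ1 : Φ 1 ≤ 24 * C * N := by
    have h5 : π * Φ 1 ≤ π * (24 * C * N) := by nlinarith
    exact le_of_mul_le_mul_left h5 hpi
  simp only [Φ, norm_one, one_pow, one_mul, one_smul] at hΦ1
  have e : x + (-(1 : ℂ)) • ξ = x - ξ := by rw [neg_smul, one_smul, sub_eq_add_neg]
  rw [e] at hΦ1
  linarith

theorem B4_room (ρ ρ' : ℝ) (h0 : 0 < ρ) (h : ρ < ρ') :
    ∃ η : ℝ, 0 < η ∧ ∀ x y : C2, nsq x ≤ ρ ^ 2 → nsq y ≤ η → nsq (x + y) ≤ ρ' ^ 2 := by
  have hd : 0 < ρ' ^ 2 - ρ ^ 2 := by nlinarith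
  set t := (ρ' ^ 2 - ρ ^ 2) / (2 * ρ ^ 2) with ht
  have ht0 : 0 < t := by positivity
  refine ⟨(ρ' ^ 2 - ρ ^ 2) / (2 * (1 + 1 / t)), by positivity, fun x y hx hy => ?_⟩
  have key : ∀ a b : ℂ, ‖a + b‖ ^ 2 ≤ (1 + t) * ‖a‖ ^ 2 + (1 + 1 / t) * ‖b‖ ^ 2 := by
    intro a b
    have h1 : ‖a + b‖ ^ 2 ≤ (‖a‖ + ‖b‖) ^ 2 :=
      pow_le_pow_left₀ (norm_nonneg _) (norm_add_le _ _) 2
    have h2 : 2 * (‖a‖ * ‖b‖) ≤ t * ‖a‖ ^ 2 + 1 / t * ‖b‖ ^ 2 := by
      have h3 : 0 ≤ (1 / t) * (t * ‖a‖ - ‖b‖) ^ 2 := by positivity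
      have h4 : (1 / t) * (t * ‖a‖ - ‖b‖) ^ 2 = t * ‖a‖ ^ 2 + 1 / t * ‖b‖ ^ 2 - 2 * (‖a‖ * ‖b‖) := by
        field_simp
        ring
      linarith
    nlinarith
  have h1 : nsq (x + y) ≤ (1 + t) * nsq x + (1 + 1 / t) * nsq y := by
    unfold nsq
    have := key x.1 y.1
    have := key x.2 y.2
    simp only [Prod.fst_add, Prod.snd_add]
    linarith
  have h2 : (1 + t) * nsq x ≤ (1 + t) * ρ ^ 2 := mul_le_mul_of_nonneg_left hx (by positivity)
  have h3 : (1 + 1 / t) * nsq y ≤ (1 + 1 / t) * ((ρ' ^ 2 - ρ ^ 2) / (2 * (1 + 1 / t))) :=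
    mul_le_mul_of_nonneg_left hy (by positivity)
  have h4 : (1 + 1 / t) * ((ρ' ^ 2 - ρ ^ 2) / (2 * (1 + 1 / t))) = (ρ' ^ 2 - ρ ^ 2) / 2 := by
    field_simp
  have h5 : (1 + t) * ρ ^ 2 = ρ ^ 2 + (ρ' ^ 2 - ρ ^ 2) / 2 := by
    rw [ht]
    field_simp
  rw [h4] at h3
  rw [h5] at h2
  linarith

/-- two-sided bound -/
theorem B4_two (u : C2 → ℝ) (hu : PshOn (bal 0 1) u)
    (H : ∀ ρ : ℝ, 0 < ρ → ρ < 1 → ∃ C δ : ℝ, 0 ≤ C ∧ 0 < δ ∧
      ∀ x h : C2, nsq x ≤ ρ ^ 2 → nsq h ≤ δ → u (x + h) + u (x - h) - 2 * u x ≤ C * nsq h)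
    (ρ : ℝ) (h0 : 0 < ρ) (h1 : ρ < 1) : ∃ C η : ℝ, 0 ≤ C ∧ 0 < η ∧
      ∀ x h : C2, nsq x ≤ ρ ^ 2 → nsq h ≤ η → |u (x + h) + u (x - h) - 2 * u x| ≤ C * nsq h := by
  obtain ⟨C, δ, hC, hδ, hs⟩ := H ((1 + ρ) / 2) (by linarith) (by linarith)
  obtain ⟨η, hη, hroom⟩ := B4_room ρ ((1 + ρ) / 2) h0 (by linarith)
  refine ⟨23 * C, min (η / 4) (δ / 4), by positivity, by positivity, fun x h hx hh => ?_⟩
  have hh1 : 4 * nsq h ≤ η := by
    have := hh.trans (min_le_left _ _); linarith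
  have hh2 : 4 * nsq h ≤ δ := by
    have := hh.trans (min_le_right _ _); linarith
  have hN := B4_nsq_nonneg h
  have hle : ∀ ζ : ℂ, ‖ζ‖ ≤ 2 → nsq (ζ • h) ≤ 4 * nsq h := by
    intro ζ hζ
    rw [B4_nsq_smul]
    have : ‖ζ‖ ^ 2 ≤ 4 := by nlinarith [norm_nonneg ζ]
    nlinarith
  have hin : ∀ ζ : ℂ, ‖ζ‖ ≤ 2 → nsq (x + ζ • h) ≤ ((1 + ρ) / 2) ^ 2 := fun ζ hζ =>
    hroom x _ hx ((hle ζ hζ).trans hh1)
  have hball : ∀ ζ : ℂ, ‖ζ‖ ≤ 2 → x + ζ • h ∈ bal 0 1 := by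
    intro ζ hζ
    show nsq (x + ζ • h - 0) < 1 ^ 2
    rw [sub_zero]
    refine lt_of_le_of_lt (hin ζ hζ) ?_
    nlinarith
  have hupper : u (x + h) + u (x - h) - 2 * u x ≤ C * nsq h := by
    refine hs x h ?_ (by linarith)
    have := hin 0 (by simp)
    simpa using this
  have hlower := B4_S u x h C
    (hu.1.comp (by fun_prop) (fun ζ hζ => hball ζ (by simpa using hζ)))
    (fun ζ t hζ ht => by
      rw [← B4_nsq_smul]
      exact hs _ _ (hin ζ hζ) ((hle t ht).trans hh2))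
    (hu.2 x _ (by
      rintro _ ⟨ζ, hζ, rfl⟩
      rw [smul_smul]
      refine hball _ ?_
      rw [norm_mul]
      simp only [Complex.norm_ofNat]
      linarith))
    (hu.2 x _ (by
      rintro _ ⟨ζ, hζ, rfl⟩
      rw [smul_smul]
      refine hball _ ?_
      rw [norm_mul, norm_neg]
      simp only [Complex.norm_ofNat]
      linarith))
  rw [abs_le]
  constructor
  · linarith
  · have : 0 ≤ C * nsq h := by positivity
    linarith

theorem B4_nsq_le (x : C2) : nsq x ≤ 2 * ‖x‖ ^ 2 := by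
  unfold nsq
  have h1 : ‖x.1‖ ≤ ‖x‖ := norm_fst_le x
  have h2 : ‖x.2‖ ≤ ‖x‖ := norm_snd_le x
  have h3 : ‖x.1‖ ^ 2 ≤ ‖x‖ ^ 2 := pow_le_pow_left₀ (norm_nonneg _) h1 2
  have h4 : ‖x.2‖ ^ 2 ≤ ‖x‖ ^ 2 := pow_le_pow_left₀ (norm_nonneg _) h2 2
  linarith

theorem B4_le_nsq (x : C2) : ‖x‖ ^ 2 ≤ nsq x := by
  unfold nsq
  rw [Prod.norm_def]
  rcases max_choice ‖x.1‖ ‖x.2‖ with h | h
  · rw [h]; nlinarith [sq_nonneg ‖x.2‖]
  · rw [h]; nlinarith [sq_nonneg ‖x.1‖]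

theorem B4_cont : Continuous nsq := by
  unfold nsq
  fun_prop

theorem B4 : B4_stmt := by
  intro u hu H
  -- uniform first order expansion
  have hexp : ∀ ρ : ℝ, 0 < ρ → ρ < 1 → ∃ r C : ℝ, 0 < r ∧ 0 ≤ C ∧ ∀ x : C2, nsq x ≤ ρ ^ 2 →
      ∃ G : C2 →L[ℝ] ℝ, ∀ h : C2, ‖h‖ < r → |u (x + h) - u x - G h| ≤ C * ‖h‖ ^ 2 := by
    intro ρ h0 h1
    obtain ⟨C, η, hC, hη, hb⟩ := B4_two u hu H ((1 + ρ) / 2) (by linarith) (by linarith)
    obtain ⟨η', hη', hroom⟩ := B4_room ρ ((1 + ρ) / 2) h0 (by linarith)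
    set r := min (1 : ℝ) (min η η' / 2) with hr
    have hr0 : 0 < r := by rw [hr]; positivity
    have hr1 : r ≤ 1 := min_le_left _ _
    have hr2 : 2 * r ≤ min η η' := by
      have : r ≤ min η η' / 2 := min_le_right _ _
      linarith
    have hsm : ∀ h : C2, ‖h‖ < r → nsq h ≤ min η η' := by
      intro h hh
      have h2 := B4_nsq_le h
      have h3 := norm_nonneg h
      have h4 : ‖h‖ ^ 2 ≤ r := by nlinarith
      linarith
    refine ⟨r, 2 * (C * 2), hr0, by positivity, fun x hx => ?_⟩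
    have hxb : x ∈ bal 0 1 := by
      show nsq (x - 0) < 1 ^ 2
      rw [sub_zero]
      nlinarith
    have hopen : IsOpen (bal 0 1) := by
      have : bal (0 : C2) 1 = nsq ⁻¹' (Iio 1) := by
        ext y
        simp [bal]
      rw [this]
      exact isOpen_Iio.preimage B4_cont
    obtain ⟨G, hG⟩ := B4_exists u x r (C * 2) hr0 (by positivity)
      (hu.1.continuousAt (hopen.mem_nhds hxb)) (fun y h hy hh => by
        have hyn : nsq y ≤ ((1 + ρ) / 2) ^ 2 := by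
          have h5 := hroom x (y - x) hx ((hsm _ hy).trans (min_le_right _ _))
          rwa [add_sub_cancel] at h5
        have h6 := hb y h hyn ((hsm _ hh).trans (min_le_left _ _))
        refine h6.trans ?_
        have h7 := B4_nsq_le h
        nlinarith)
    exact ⟨G, hG⟩
  have hfd : ∀ (x : C2) (r C : ℝ) (G : C2 →L[ℝ] ℝ), 0 < r → 0 ≤ C →
      (∀ h : C2, ‖h‖ < r → |u (x + h) - u x - G h| ≤ C * ‖h‖ ^ 2) → fderiv ℝ u x = G :=
    fun x r C G hr hC hG => (B4_deriv u x r C hr hC G hG).fderiv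
  refine ⟨fun x => fderiv ℝ u x, ?_, ?_⟩
  · intro x hx
    have hx1 : nsq x < 1 := by
      have : nsq (x - 0) < 1 ^ 2 := hx
      rwa [sub_zero, one_pow] at this
    have hx0 := B4_nsq_nonneg x
    obtain ⟨ρ, hρ1, hρ2⟩ : ∃ ρ : ℝ, Real.sqrt (nsq x) < ρ ∧ ρ < 1 := by
      apply exists_between
      rw [Real.sqrt_lt' one_pos, one_pow]
      exact hx1
    have hρ0 : 0 < ρ := lt_of_le_of_lt (Real.sqrt_nonneg _) hρ1
    obtain ⟨r, C, hr, hC, hE⟩ := hexp ρ hρ0 hρ2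
    obtain ⟨G, hG⟩ := hE x ((Real.sqrt_lt' hρ0).1 hρ1).le
    show HasFDerivAt u (fderiv ℝ u x) x
    rw [hfd x r C G hr hC hG]
    exact B4_deriv u x r C hr hC G hG
  · intro ρ h0 h1
    obtain ⟨r, C, hr, hC, hE⟩ := hexp ρ h0 h1
    obtain ⟨η', hη', hroom⟩ := B4_room ρ ((1 + ρ) / 2) h0 (by linarith)
    have hEx : ∀ x : C2, nsq x ≤ ρ ^ 2 → ∀ h : C2, ‖h‖ < r →
        |u (x + h) - u x - fderiv ℝ u x h| ≤ C * ‖h‖ ^ 2 := by
      intro x hx
      obtain ⟨G, hG⟩ := hE x hx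
      rw [hfd x r C G hr hC hG]
      exact hG
    -- bound of u
    have hK : IsCompact {x : C2 | nsq x ≤ ((1 + ρ) / 2) ^ 2} := by
      refine Metric.isCompact_of_isClosed_isBounded (isClosed_le B4_cont continuous_const) ?_
      refine (Metric.isBounded_closedBall (x := (0 : C2)) (r := 1)).subset ?_
      intro x hx
      rw [mem_closedBall_zero_iff]
      have h2 := B4_le_nsq x
      have h3 : nsq x ≤ ((1 + ρ) / 2) ^ 2 := hx
      have h4 := norm_nonneg x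
      by_contra hcon
      push Not at hcon
      nlinarith
    obtain ⟨B, hB⟩ := hK.exists_bound_of_continuousOn (f := u) (hu.1.mono (by
      intro x hx
      show nsq (x - 0) < 1 ^ 2
      rw [sub_zero]
      have h3 : nsq x ≤ ((1 + ρ) / 2) ^ 2 := hx
      nlinarith))
    set r' := min (r / 2) (min 1 (η' / 2)) with hr'
    have hr'0 : 0 < r' := by rw [hr']; positivity
    have hr'1 : r' < r := lt_of_le_of_lt (min_le_left _ _) (by linarith)
    have hr'2 : r' ≤ 1 := (min_le_right _ _).trans (min_le_left _ _)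
    have hr'3 : 2 * r' ≤ η' := by
      have : r' ≤ η' / 2 := (min_le_right _ _).trans (min_le_right _ _)
      linarith
    have hB0 : 0 ≤ B := by
      have h2 : (0 : C2) ∈ {x : C2 | nsq x ≤ ((1 + ρ) / 2) ^ 2} := by
        show nsq 0 ≤ _
        simp [nsq]
        positivity
      exact (norm_nonneg _).trans (hB 0 h2)
    have hGb : ∀ x : C2, nsq x ≤ ρ ^ 2 → ‖fderiv ℝ u x‖ ≤ (2 * B + C * r' ^ 2) / r' := by
      intro x hx
      refine B4_norm _ r' _ hr'0 (by positivity) (fun v hv => ?_)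
      have h2 := hEx x hx v (by rw [hv]; exact hr'1)
      have hv2 : nsq v ≤ η' := by
        have h3 := B4_nsq_le v
        rw [hv] at h3
        nlinarith
      have h4 := hB (x + v) (hroom x v hx hv2)
      have h5 := hB x (by
        show nsq x ≤ ((1 + ρ) / 2) ^ 2
        nlinarith)
      rw [Real.norm_eq_abs] at h4 h5
      rw [hv] at h2
      rw [abs_le] at h2 h4 h5 ⊢
      constructor <;> linarith [h2.1, h2.2, h4.1, h4.2, h5.1, h5.2]
    set B' := (2 * B + C * r' ^ 2) / r' with hB'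
    have hB'0 : 0 ≤ B' := by positivity
    refine ⟨6 * C + 4 * B' / r, fun x hx y hy => ?_⟩
    have hx' : nsq x ≤ ρ ^ 2 := by
      have : nsq (x - 0) < ρ ^ 2 := hx
      rw [sub_zero] at this
      exact this.le
    have hy' : nsq y ≤ ρ ^ 2 := by
      have : nsq (y - 0) < ρ ^ 2 := hy
      rw [sub_zero] at this
      exact this.le
    show ‖fderiv ℝ u x - fderiv ℝ u y‖ ≤ (6 * C + 4 * B' / r) * ‖x - y‖
    rcases eq_or_ne x y with rfl | hne
    · simp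
    have hxy := norm_nonneg (x - y)
    have hq : 0 ≤ 4 * B' / r := by positivity
    rcases lt_or_ge (2 * ‖x - y‖) r with hlt | hge
    · have h2 := B4_lip u x y r C hC _ _ (hEx x hx') (hEx y hy') hlt hne
      nlinarith
    · have h2 : ‖fderiv ℝ u x - fderiv ℝ u y‖ ≤ 2 * B' :=
        (norm_sub_le _ _).trans (by linarith [hGb x hx', hGb y hy'])
      have h3 : 2 * B' ≤ 4 * B' / r * ‖x - y‖ := by
        rw [div_mul_eq_mul_div, le_div_iff₀ hr]
        nlinarith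
      have h4 : 0 ≤ 6 * C * ‖x - y‖ := by positivity
      nlinarith

end

end MAP
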